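import Pool.Agent.Helper52.NF.St3

set_option autoImplicit false

/-! Project NF (MP_dd34a0_co), module PF: disjoint negative faces give disjoint negative cycles. -/

namespace Pool.Agent.Helper19.NF

open Pool.Agent.Helper52.NF Finset

theorem hPF (h : StPG) : StPF := by
  intro V _ G rot φ hPl σ F₀ hneg hdis
  let S : Fin F₀.card → Finset (Fc φ ⊕ V) := fun i => {Sum.inl (F₀.equivFin.symm i).1}
  refine h V G rot φ hPl σ F₀.card S ?_ ?_ ?_
  · intro i
    show ∑ x ∈ ({Sum.inl (F₀.equivFin.symm i).1} : Finset (Fc φ ⊕ V)), ft φ σ x = 1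
    rw [Finset.sum_singleton]
    exact hneg _ (F₀.equivFin.symm i).2
  · intro i d hd
    have h1 : eb φ d = Sum.inl (F₀.equivFin.symm i).1 := Finset.mem_singleton.mp hd
    unfold eb at h1
    cases h1
  · intro i j hij d d' h1 _ h3 _ h5
    have e1 : fc φ d = (F₀.equivFin.symm i).1 := Sum.inl.inj (Finset.mem_singleton.mp h1)
    have e3 : fc φ d' = (F₀.equivFin.symm j).1 := Sum.inl.inj (Finset.mem_singleton.mp h3)
    have e5 : d.fst = d'.fst := Sum.inr.inj h5
    have hne : (F₀.equivFin.symm i).1 ≠ (F₀.equivFin.symm j).1 := by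
      intro hc
      exact hij (F₀.equivFin.symm.injective (Subtype.ext hc))
    exact hdis _ (F₀.equivFin.symm i).2 _ (F₀.equivFin.symm j).2 hne d.fst
      ⟨⟨d, e1, rfl⟩, ⟨d', e3, e5.symm⟩⟩

end Pool.Agent.Helper19.NF
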